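import Pool.Agent.Helper53.Comp.GoalsC

/-!
# Packet A2: Crapo's theorem on the beta invariant
-/

namespace Mono.Comp

namespace A2

open Finset

variable {α : Type} [DecidableEq α]

theorem alt_zero (g : Finset α → ℤ) (E : Finset α) (b : α) (hb : b ∈ E)
    (h : ∀ S, g (insert b S) = g S) : ∑ S ∈ E.powerset, (-1) ^ S.card * g S = 0 := by
  classical
  have hE : insert b (E.erase b) = E := Finset.insert_erase hb
  rw [← hE, Finset.sum_powerset_insert (Finset.notMem_erase b E)]
  rw [← Finset.sum_add_distrib]
  apply Finset.sum_eq_zero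
  intro S hS
  have hbS : b ∉ S := fun hbS => Finset.notMem_erase b E (Finset.mem_powerset.1 hS hbS)
  rw [Finset.card_insert_of_notMem hbS, h S]
  ring

theorem altR_insert (r : Finset α → ℕ) (G E : Finset α) (x : α) (hx : x ∉ E) :
    altR r G (insert x E) = altR r G E - altR r (insert x G) E := by
  unfold altR
  rw [Finset.sum_powerset_insert hx, sub_eq_add_neg, ← Finset.sum_neg_distrib]
  congr 1
  apply Finset.sum_congr rfl
  intro S hS
  have hxS : x ∉ S := fun hxS => hx (Finset.mem_powerset.1 hS hxS)
  rw [Finset.card_insert_of_notMem hxS]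
  have : insert x S ∪ G = S ∪ insert x G := by
    ext y; simp only [Finset.mem_union, Finset.mem_insert]; tauto
  rw [this]
  ring

theorem union_mem_inter (r : Finset α → ℕ) (hr : RankFn r) (G S T : Finset α) :
    r ((S ∪ T) ∪ G) + r ((S ∩ T) ∪ G) ≤ r (S ∪ G) + r (T ∪ G) := by
  have h := hr.submod (S ∪ G) (T ∪ G)
  have h1 : (S ∪ G) ∪ (T ∪ G) = (S ∪ T) ∪ G := by
    ext y; simp only [Finset.mem_union]; tauto
  have h2 : (S ∪ G) ∩ (T ∪ G) = (S ∩ T) ∪ G := by
    ext y; simp only [Finset.mem_union, Finset.mem_inter]; tauto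
  rw [h1, h2] at h
  exact h

theorem nonconn (r : Finset α → ℕ) (hr : RankFn r) (G E : Finset α) (h : ¬ ConnR r G E) :
    altR r G E = 0 := by
  unfold ConnR at h
  push Not at h
  obtain ⟨A, B, hA, hB, hAB, hE, hsep⟩ := h
  obtain ⟨a, ha⟩ := hA
  obtain ⟨b, hb⟩ := hB
  have haB : a ∉ B := fun h => (Finset.disjoint_left.1 hAB ha h)
  have hbA : b ∉ A := fun h => (Finset.disjoint_left.1 hAB h hb)
  have key : ∀ S ∈ E.powerset, (-1 : ℤ) ^ S.card * (r (S ∪ G) : ℤ) =
      (-1) ^ S.card * ((r ((S ∩ A) ∪ G) : ℤ)) + (-1) ^ S.card * ((r ((S ∩ B) ∪ G) : ℤ))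
        - (-1) ^ S.card * (r G : ℤ) := by
    intro S hS
    have hS' : S ⊆ A ∪ B := by rw [hE]; exact Finset.mem_powerset.1 hS
    have e1 : S = (S ∩ A) ∪ (S ∩ B) := by
      ext y
      constructor
      · intro hy
        have := hS' hy
        simp only [Finset.mem_union, Finset.mem_inter] at this ⊢
        tauto
      · intro hy
        simp only [Finset.mem_union, Finset.mem_inter] at hy
        tauto
    have e0 : (S ∩ A) ∩ (S ∩ B) = ∅ := by
      ext y
      simp only [Finset.mem_inter, Finset.notMem_empty, iff_false]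
      rintro ⟨⟨_, h1⟩, _, h2⟩
      exact Finset.disjoint_left.1 hAB h1 h2
    have i1 := union_mem_inter r hr G (S ∩ A) (S ∩ B)
    rw [← e1, e0, Finset.empty_union] at i1
    -- lower bound
    have i2 := union_mem_inter r hr G S A
    have e2 : S ∪ A = A ∪ (S ∩ B) := by
      ext y
      constructor
      · intro hy
        rcases Finset.mem_union.1 hy with hy | hy
        · have := hS' hy
          simp only [Finset.mem_union, Finset.mem_inter] at this ⊢
          tauto
        · simp only [Finset.mem_union, Finset.mem_inter]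
          tauto
      · intro hy
        simp only [Finset.mem_union, Finset.mem_inter] at hy ⊢
        tauto
    have i3 := union_mem_inter r hr G (A ∪ (S ∩ B)) B
    have e3 : (A ∪ (S ∩ B)) ∪ B = E := by
      rw [← hE]
      ext y
      simp only [Finset.mem_union, Finset.mem_inter]
      tauto
    have e4 : (A ∪ (S ∩ B)) ∩ B = S ∩ B := by
      ext y
      constructor
      · intro hy
        simp only [Finset.mem_union, Finset.mem_inter] at hy ⊢
        rcases hy with ⟨h1 | h1, h2⟩
        · exact absurd h2 (Finset.disjoint_left.1 hAB h1)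
        · exact h1
      · intro hy
        simp only [Finset.mem_union, Finset.mem_inter] at hy ⊢
        tauto
    rw [e3, e4] at i3
    rw [e2] at i2
    have fin : r (S ∪ G) + r G = r ((S ∩ A) ∪ G) + r ((S ∩ B) ∪ G) := by omega
    have fin' : (r (S ∪ G) : ℤ) = r ((S ∩ A) ∪ G) + r ((S ∩ B) ∪ G) - r G := by
      have : ((r (S ∪ G) + r G : ℕ) : ℤ) = ((r ((S ∩ A) ∪ G) + r ((S ∩ B) ∪ G) : ℕ) : ℤ) := by
        rw [fin]
      push_cast at this
      linarith
    rw [fin']
    ring
  unfold altR
  rw [Finset.sum_congr rfl key, Finset.sum_sub_distrib, Finset.sum_add_distrib]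
  have z1 := alt_zero (fun S => (r ((S ∩ A) ∪ G) : ℤ)) E b (by rw [← hE]; simp [hb]) (by
    intro S
    have : insert b S ∩ A = S ∩ A := Finset.insert_inter_of_notMem hbA
    simp only [this])
  have z2 := alt_zero (fun S => (r ((S ∩ B) ∪ G) : ℤ)) E a (by rw [← hE]; simp [ha]) (by
    intro S
    have : insert a S ∩ B = S ∩ B := Finset.insert_inter_of_notMem haB
    simp only [this])
  have z3 := alt_zero (fun _ => (r G : ℤ)) E a (by rw [← hE]; simp [ha]) (by
    intro S; rfl)
  rw [z1, z2, z3]
  ring

theorem noloop (r : Finset α → ℕ) (hr : RankFn r) (G E : Finset α) (h : ConnR r G E)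
    (hc : 2 ≤ E.card) (x : α) (hx : x ∈ E) : r (insert x G) = r G + 1 := by
  by_contra hne
  have h1 : r (insert x G) = r G := by
    have a := hr.insert G x
    have b := hr.mono G (insert x G) (Finset.subset_insert x G)
    omega
  have hE' : (E.erase x).Nonempty := by
    rw [← Finset.card_pos, Finset.card_erase_of_mem hx]; omega
  have hu : {x} ∪ E.erase x = E := by
    rw [← Finset.insert_eq]; exact Finset.insert_erase hx
  have hd : Disjoint ({x} : Finset α) (E.erase x) := by
    rw [Finset.disjoint_singleton_left]; exact Finset.notMem_erase x E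
  have hC := h {x} (E.erase x) (Finset.singleton_nonempty x) hE' hd hu
  apply hC
  have hx1 : ({x} : Finset α) ∪ G = insert x G := (Finset.insert_eq x G).symm
  have i1 := union_mem_inter r hr G {x} (E.erase x)
  rw [hu] at i1
  have i2 : r G ≤ r (({x} ∩ E.erase x) ∪ G) := hr.mono _ _ Finset.subset_union_right
  have i3 : r (E.erase x ∪ G) ≤ r (E ∪ G) :=
    hr.mono _ _ (Finset.union_subset_union_left (Finset.erase_subset x E))
  rw [hx1] at i1 ⊢
  omega

theorem nocoloop (r : Finset α → ℕ) (hr : RankFn r) (G E : Finset α) (h : ConnR r G E)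
    (hc : 2 ≤ E.card) (x : α) (hx : x ∈ E) : r (E.erase x ∪ G) = r (E ∪ G) := by
  by_contra hne
  have hl := noloop r hr G E h hc x hx
  have hE' : (E.erase x).Nonempty := by
    rw [← Finset.card_pos, Finset.card_erase_of_mem hx]; omega
  have hu : {x} ∪ E.erase x = E := by
    rw [← Finset.insert_eq]; exact Finset.insert_erase hx
  have hd : Disjoint ({x} : Finset α) (E.erase x) := by
    rw [Finset.disjoint_singleton_left]; exact Finset.notMem_erase x E
  have hC := h {x} (E.erase x) (Finset.singleton_nonempty x) hE' hd hu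
  apply hC
  have hx1 : ({x} : Finset α) ∪ G = insert x G := (Finset.insert_eq x G).symm
  have i3 : r (E.erase x ∪ G) ≤ r (E ∪ G) :=
    hr.mono _ _ (Finset.union_subset_union_left (Finset.erase_subset x E))
  have i4 := hr.insert (E.erase x ∪ G) x
  have e4 : insert x (E.erase x ∪ G) = E ∪ G := by
    rw [← Finset.insert_union, Finset.insert_erase hx]
  rw [e4] at i4
  rw [hx1]
  omega

/-- closure property -/
theorem cl_mono (r : Finset α → ℕ) (hr : RankFn r) (S T : Finset α) (x : α) (hST : S ⊆ T)
    (h : r (insert x S) = r S) : r (insert x T) = r T := by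
  have h1 := hr.submod (insert x S) T
  have e1 : insert x S ∪ T = insert x T := by
    ext y; simp only [Finset.mem_union, Finset.mem_insert]
    constructor
    · rintro ((h | h) | h)
      · exact Or.inl h
      · exact Or.inr (hST h)
      · exact Or.inr h
    · rintro (h | h)
      · exact Or.inl (Or.inl h)
      · exact Or.inr h
  have e2 : r S ≤ r (insert x S ∩ T) := by
    apply hr.mono
    intro y hy
    simp only [Finset.mem_inter, Finset.mem_insert]
    exact ⟨Or.inr hy, hST hy⟩
  have e3 := hr.mono T (insert x T) (Finset.subset_insert x T)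
  rw [e1] at h1
  omega

theorem conn_ge (r : Finset α → ℕ) (hr : RankFn r) (G E : Finset α) (h : ConnR r G E)
    (A B : Finset α) (hA : A.Nonempty) (hB : B.Nonempty) (hd : Disjoint A B) (hE : A ∪ B = E) :
    r (E ∪ G) + r G + 1 ≤ r (A ∪ G) + r (B ∪ G) := by
  have h1 := h A B hA hB hd hE
  have h2 := union_mem_inter r hr G A B
  rw [hE, Finset.disjoint_iff_inter_eq_empty.1 hd, Finset.empty_union] at h2
  omega

theorem cross (r : Finset α → ℕ) (hr : RankFn r) (G E : Finset α) (h : ConnR r G E)
    (x : α) (hx : x ∈ E) (A B C D : Finset α)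
    (hABd : Disjoint A B) (hAB : A ∪ B = E.erase x)
    (hCDd : Disjoint C D) (hCD : C ∪ D = E.erase x)
    (hAC : (A ∩ C).Nonempty) (hBD : (B ∩ D).Nonempty)
    (h1 : r (A ∪ G) + r (B ∪ G) ≤ r (E ∪ G) + r G)
    (h2 : r (C ∪ G) + r (D ∪ G) ≤ r (E ∪ G) + r G + 1)
    (hC : r (insert x (C ∪ G)) = r (C ∪ G)) (hD : r (insert x (D ∪ G)) = r (D ∪ G)) : False := by
  have hxE' : x ∉ E.erase x := Finset.notMem_erase x E
  have hxA : x ∉ A := fun h => hxE' (hAB ▸ Finset.mem_union_left _ h)
  have hxB : x ∉ B := fun h => hxE' (hAB ▸ Finset.mem_union_right _ h)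
  have hxC : x ∉ C := fun h => hxE' (hCD ▸ Finset.mem_union_left _ h)
  have hxD : x ∉ D := fun h => hxE' (hCD ▸ Finset.mem_union_right _ h)
  have memAB : ∀ y, y ∈ E ↔ y = x ∨ y ∈ A ∨ y ∈ B := by
    intro y
    rw [← Finset.insert_erase hx, Finset.mem_insert, ← hAB, Finset.mem_union]
  have memCD : ∀ y, y ∈ E ↔ y = x ∨ y ∈ C ∨ y ∈ D := by
    intro y
    rw [← Finset.insert_erase hx, Finset.mem_insert, ← hCD, Finset.mem_union]
  have key1 := conn_ge r hr G E h (insert x (A ∪ C)) (B ∩ D) (Finset.insert_nonempty _ _) hBD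
    (by
      rw [Finset.disjoint_left]
      intro y hy hy2
      have hB := (Finset.mem_inter.1 hy2).1
      have hD' := (Finset.mem_inter.1 hy2).2
      rcases Finset.mem_insert.1 hy with rfl | hy
      · exact hxB hB
      · rcases Finset.mem_union.1 hy with hy | hy
        · exact Finset.disjoint_left.1 hABd hy hB
        · exact Finset.disjoint_left.1 hCDd hy hD')
    (by
      ext y
      have a := memAB y
      have b := memCD y
      simp only [Finset.mem_union, Finset.mem_insert, Finset.mem_inter]
      tauto)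
  have key2 := conn_ge r hr G E h (A ∩ C) (insert x (B ∪ D)) hAC (Finset.insert_nonempty _ _)
    (by
      rw [Finset.disjoint_left]
      intro y hy2 hy
      have hA := (Finset.mem_inter.1 hy2).1
      have hC' := (Finset.mem_inter.1 hy2).2
      rcases Finset.mem_insert.1 hy with rfl | hy
      · exact hxA hA
      · rcases Finset.mem_union.1 hy with hy | hy
        · exact Finset.disjoint_left.1 hABd hA hy
        · exact Finset.disjoint_left.1 hCDd hC' hy)
    (by
      ext y
      have a := memAB y
      have b := memCD y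
      simp only [Finset.mem_union, Finset.mem_insert, Finset.mem_inter]
      tauto)
  have e1 : insert x (A ∪ C) ∪ G = insert x ((A ∪ C) ∪ G) := Finset.insert_union _ _ _
  have e2 : insert x (B ∪ D) ∪ G = insert x ((B ∪ D) ∪ G) := Finset.insert_union _ _ _
  have c1 : r (insert x ((A ∪ C) ∪ G)) = r ((A ∪ C) ∪ G) :=
    cl_mono r hr (C ∪ G) _ x (Finset.union_subset_union_left Finset.subset_union_right) hC
  have c2 : r (insert x ((B ∪ D) ∪ G)) = r ((B ∪ D) ∪ G) :=
    cl_mono r hr (D ∪ G) _ x (Finset.union_subset_union_left Finset.subset_union_right) hD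
  rw [e1, c1] at key1
  rw [e2, c2] at key2
  have s1 := union_mem_inter r hr G A C
  have s2 := union_mem_inter r hr G B D
  omega

theorem tutte (r : Finset α → ℕ) (hr : RankFn r) (G E : Finset α) (h : ConnR r G E)
    (hc : 2 ≤ E.card) (x : α) (hx : x ∈ E) :
    ConnR r G (E.erase x) ∨ ConnR r (insert x G) (E.erase x) := by
  by_contra hcon
  push Not at hcon
  obtain ⟨hn1, hn2⟩ := hcon
  unfold ConnR at hn1 hn2
  push Not at hn1 hn2
  obtain ⟨A, B, hA, hB, hABd, hAB, hsep1⟩ := hn1
  obtain ⟨C, D, hC, hD, hCDd, hCD, hsep2⟩ := hn2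
  have hnl := noloop r hr G E h hc x hx
  have hnc := nocoloop r hr G E h hc x hx
  have hxE' : x ∉ E.erase x := Finset.notMem_erase x E
  have hxC : x ∉ C := fun h => hxE' (hCD ▸ Finset.mem_union_left _ h)
  have hxD : x ∉ D := fun h => hxE' (hCD ▸ Finset.mem_union_right _ h)
  have eC : C ∪ insert x G = insert x (C ∪ G) := Finset.union_insert _ _ _
  have eD : D ∪ insert x G = insert x (D ∪ G) := Finset.union_insert _ _ _
  have eE : E.erase x ∪ insert x G = E ∪ G := by
    rw [Finset.union_insert, ← Finset.insert_union, Finset.insert_erase hx]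
  rw [eC, eD, eE, hnl] at hsep2
  rw [hnc] at hsep1
  have memCD : ∀ y, y ∈ E ↔ y = x ∨ y ∈ C ∨ y ∈ D := by
    intro y
    rw [← Finset.insert_erase hx, Finset.mem_insert, ← hCD, Finset.mem_union]
  have k1 := conn_ge r hr G E h (insert x C) D (Finset.insert_nonempty _ _) hD
    (by
      rw [Finset.disjoint_insert_left]; exact ⟨hxD, hCDd⟩)
    (by
      ext y
      have b := memCD y
      simp only [Finset.mem_union, Finset.mem_insert]
      tauto)
  have k2 := conn_ge r hr G E h (insert x D) C (Finset.insert_nonempty _ _) hC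
    (by
      rw [Finset.disjoint_insert_left]; exact ⟨hxC, hCDd.symm⟩)
    (by
      ext y
      have b := memCD y
      simp only [Finset.mem_union, Finset.mem_insert]
      tauto)
  rw [Finset.insert_union] at k1 k2
  have m1 := hr.mono (D ∪ G) (insert x (D ∪ G)) (Finset.subset_insert _ _)
  have m2 := hr.mono (C ∪ G) (insert x (C ∪ G)) (Finset.subset_insert _ _)
  have hD' : r (insert x (D ∪ G)) = r (D ∪ G) := by omega
  have hC' : r (insert x (C ∪ G)) = r (C ∪ G) := by omega
  have hsum : r (C ∪ G) + r (D ∪ G) ≤ r (E ∪ G) + r G + 1 := by omega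
  by_cases hAC : (A ∩ C).Nonempty ∧ (B ∩ D).Nonempty
  · exact cross r hr G E h x hx A B C D hABd hAB hCDd hCD hAC.1 hAC.2 hsep1.le hsum hC' hD'
  · have hAD : (A ∩ D).Nonempty ∧ (B ∩ C).Nonempty := by
      have hmem : ∀ y, (y ∈ A ∨ y ∈ B) ↔ (y ∈ C ∨ y ∈ D) := by
        intro y
        rw [← Finset.mem_union, ← Finset.mem_union, hAB, hCD]
      by_cases h1 : (A ∩ C).Nonempty
      · have h2 : ¬ (B ∩ D).Nonempty := fun h2 => hAC ⟨h1, h2⟩
        have h2' : ∀ y, y ∈ B → y ∉ D := fun y hy hy' => h2 ⟨y, Finset.mem_inter.2 ⟨hy, hy'⟩⟩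
        obtain ⟨b, hb⟩ := hB
        obtain ⟨d, hd⟩ := hD
        refine ⟨⟨d, Finset.mem_inter.2 ⟨?_, hd⟩⟩, ⟨b, Finset.mem_inter.2 ⟨hb, ?_⟩⟩⟩
        · rcases (hmem d).2 (Or.inr hd) with h | h
          · exact h
          · exact absurd hd (h2' d h)
        · rcases (hmem b).1 (Or.inr hb) with h | h
          · exact h
          · exact absurd h (h2' b hb)
      · have h1' : ∀ y, y ∈ A → y ∉ C := fun y hy hy' => h1 ⟨y, Finset.mem_inter.2 ⟨hy, hy'⟩⟩
        obtain ⟨a, ha⟩ := hA
        obtain ⟨c, hc'⟩ := hC
        refine ⟨⟨a, Finset.mem_inter.2 ⟨ha, ?_⟩⟩, ⟨c, Finset.mem_inter.2 ⟨?_, hc'⟩⟩⟩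
        · rcases (hmem a).1 (Or.inl ha) with h | h
          · exact absurd h (h1' a ha)
          · exact h
        · rcases (hmem c).2 (Or.inl hc') with h | h
          · exact absurd hc' (h1' c h)
          · exact h
    exact cross r hr G E h x hx A B D C hABd hAB hCDd.symm (by rw [Finset.union_comm, hCD])
      hAD.1 hAD.2 hsep1.le (by omega) hD' hC'

theorem main (r : Finset α → ℕ) (hr : RankFn r) : ∀ (n : ℕ) (G E : Finset α), E.card = n + 1 →
    0 ≤ (-1 : ℤ) ^ (r (E ∪ G) - r G) * altR r G E ∧
    (ConnR r G E → (∀ x ∈ E, r (insert x G) = r G + 1) → altR r G E ≠ 0) := by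
  intro n
  induction n with
  | zero =>
    intro G E hE
    obtain ⟨x, rfl⟩ := Finset.card_eq_one.1 hE
    have ha : altR r G {x} = (r G : ℤ) - r (insert x G) := by
      have := altR_insert r G ∅ x (Finset.notMem_empty x)
      rw [insert_empty_eq] at this
      rw [this]
      simp [altR]
    have hx1 : ({x} : Finset α) ∪ G = insert x G := (Finset.insert_eq x G).symm
    have i1 := hr.insert G x
    have i2 := hr.mono G (insert x G) (Finset.subset_insert _ _)
    rw [ha, hx1]
    constructor
    · rcases (show r (insert x G) = r G ∨ r (insert x G) = r G + 1 by omega) with h | h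
      · rw [h]; simp
      · rw [h]; simp
    · intro _ h
      rw [h x (Finset.mem_singleton_self x)]
      push_cast
      intro h0
      linarith
  | succ n ih =>
    intro G E hE
    by_cases hconn : ConnR r G E
    · have hc : 2 ≤ E.card := by omega
      have hne : E.Nonempty := by rw [← Finset.card_pos]; omega
      obtain ⟨x, hx⟩ := hne
      have hnl := noloop r hr G E hconn hc
      have hnc := nocoloop r hr G E hconn hc x hx
      have hcard : (E.erase x).card = n + 1 := by rw [Finset.card_erase_of_mem hx]; omega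
      obtain ⟨ih1, ih1'⟩ := ih G (E.erase x) hcard
      obtain ⟨ih2, ih2'⟩ := ih (insert x G) (E.erase x) hcard
      have eE : E.erase x ∪ insert x G = E ∪ G := by
        rw [Finset.union_insert, ← Finset.insert_union, Finset.insert_erase hx]
      rw [hnc] at ih1
      rw [eE, hnl x hx] at ih2
      have hrec : altR r G E = altR r G (E.erase x) - altR r (insert x G) (E.erase x) := by
        have := altR_insert r G (E.erase x) x (Finset.notMem_erase x E)
        rwa [Finset.insert_erase hx] at this
      have hle : r G + 1 ≤ r (E ∪ G) := by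
        rw [← hnl x hx]
        apply hr.mono
        intro y hy
        rcases Finset.mem_insert.1 hy with rfl | hy
        · exact Finset.mem_union_left _ hx
        · exact Finset.mem_union_right _ hy
      obtain ⟨k, hk⟩ : ∃ k, r (E ∪ G) = r G + 1 + k := ⟨_, (Nat.add_sub_of_le hle).symm⟩
      have hk1 : r (E ∪ G) - r G = k + 1 := by omega
      have hk2 : r (E ∪ G) - (r G + 1) = k := by omega
      rw [hk1] at ih1 ⊢
      rw [hk2] at ih2
      have hsign : (-1 : ℤ) ^ (k + 1) * altR r G E =
          (-1) ^ (k + 1) * altR r G (E.erase x) + (-1) ^ k * altR r (insert x G) (E.erase x) := by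
        rw [hrec, pow_succ]; ring
      constructor
      · rw [hsign]; linarith
      · intro _ _ h0
        rw [h0, mul_zero] at hsign
        have z1 : (-1 : ℤ) ^ (k + 1) * altR r G (E.erase x) = 0 := by linarith
        have z2 : (-1 : ℤ) ^ k * altR r (insert x G) (E.erase x) = 0 := by linarith
        have y1 : altR r G (E.erase x) = 0 := by
          rcases mul_eq_zero.1 z1 with h | h
          · exact absurd h (pow_ne_zero _ (by norm_num))
          · exact h
        have y2 : altR r (insert x G) (E.erase x) = 0 := by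
          rcases mul_eq_zero.1 z2 with h | h
          · exact absurd h (pow_ne_zero _ (by norm_num))
          · exact h
        rcases Nat.eq_zero_or_pos n with hn | hn
        · -- one element left
          apply ih1' _ (fun y hy => hnl y (Finset.mem_of_mem_erase hy)) y1
          intro A B hA hB hd hu
          exfalso
          have c1 := Finset.card_union_of_disjoint hd
          have := hA.card_pos
          have := hB.card_pos
          rw [hu, hcard] at c1
          omega
        · have hc' : 2 ≤ (E.erase x).card := by omega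
          rcases tutte r hr G E hconn hc x hx with hT | hT
          · exact ih1' hT (noloop r hr G _ hT hc') y1
          · exact ih2' hT (noloop r hr (insert x G) _ hT hc') y2
    · have h0 := nonconn r hr G E hconn
      constructor
      · rw [h0]; simp
      · intro h; exact absurd h hconn

end A2

theorem crapo : Crapo := by
  intro α _ r hr G E _ hE
  obtain ⟨n, hn⟩ : ∃ n, E.card = n + 1 := ⟨E.card - 1, by have := hE.card_pos; omega⟩
  obtain ⟨h1, h2⟩ := A2.main r hr n G E hn
  exact ⟨h1, h2, A2.nonconn r hr G E⟩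

end Mono.Comp
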